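import Pool.Agent.Helper43_OM.Pub

set_option autoImplicit false

/-!
# Omissible points near a cubic curve (squad NC, problem MP_7e2fab_co): definitions

Points of the plane are lifted to `V = ℝ × ℝ × ℝ` by `hat x = (x.1, x.2, 1)` (Helper43_OM). A cubic
curve is given by ten coefficients `c`; `T c` is its symmetric trilinear form, `G c v = T c v v v`.
-/

namespace Pool.Agent.NCub

open Pool.Agent.OM

/-- The symmetric trilinear form of the cubic with the coefficients `c`. -/
noncomputable def T (c : Fin 10 → ℝ) (u v w : V) : ℝ :=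
  c 0 * (u.1 * v.1 * w.1) +
  c 1 / 3 * (u.1 * v.1 * w.2.1 + u.1 * v.2.1 * w.1 + u.2.1 * v.1 * w.1) +
  c 2 / 3 * (u.1 * v.1 * w.2.2 + u.1 * v.2.2 * w.1 + u.2.2 * v.1 * w.1) +
  c 3 / 3 * (u.1 * v.2.1 * w.2.1 + u.2.1 * v.1 * w.2.1 + u.2.1 * v.2.1 * w.1) +
  c 4 / 6 * (u.1 * v.2.1 * w.2.2 + u.1 * v.2.2 * w.2.1 + u.2.1 * v.1 * w.2.2 +
    u.2.1 * v.2.2 * w.1 + u.2.2 * v.1 * w.2.1 + u.2.2 * v.2.1 * w.1) +
  c 5 / 3 * (u.1 * v.2.2 * w.2.2 + u.2.2 * v.1 * w.2.2 + u.2.2 * v.2.2 * w.1) +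
  c 6 * (u.2.1 * v.2.1 * w.2.1) +
  c 7 / 3 * (u.2.1 * v.2.1 * w.2.2 + u.2.1 * v.2.2 * w.2.1 + u.2.2 * v.2.1 * w.2.1) +
  c 8 / 3 * (u.2.1 * v.2.2 * w.2.2 + u.2.2 * v.2.1 * w.2.2 + u.2.2 * v.2.2 * w.2.1) +
  c 9 * (u.2.2 * v.2.2 * w.2.2)

/-- The cubic form. -/
noncomputable def G (c : Fin 10 → ℝ) (v : V) : ℝ := T c v v v

variable (c : Fin 10 → ℝ)

theorem T_swap12 (u v w : V) : T c u v w = T c v u w := by unfold T; ring
theorem T_swap23 (u v w : V) : T c u v w = T c u w v := by unfold T; ring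

theorem T_add_left (u u' v w : V) : T c (u + u') v w = T c u v w + T c u' v w := by
  simp only [T, Prod.fst_add, Prod.snd_add]; ring

theorem T_smul_left (s : ℝ) (u v w : V) : T c (s • u) v w = s * T c u v w := by
  simp only [T, Prod.smul_fst, Prod.smul_snd, smul_eq_mul]; ring

theorem T_add_mid (u v v' w : V) : T c u (v + v') w = T c u v w + T c u v' w := by
  rw [T_swap12, T_add_left, T_swap12 c v u w, T_swap12 c v' u w]

theorem T_smul_mid (s : ℝ) (u v w : V) : T c u (s • v) w = s * T c u v w := by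
  rw [T_swap12, T_smul_left, T_swap12 c v u w]

theorem T_add_right (u v w w' : V) : T c u v (w + w') = T c u v w + T c u v w' := by
  rw [T_swap23, T_add_mid, T_swap23 c u w v, T_swap23 c u w' v]

theorem T_smul_right (s : ℝ) (u v w : V) : T c u v (s • w) = s * T c u v w := by
  rw [T_swap23, T_smul_mid, T_swap23 c u w v]

/-- The cubic on a line. -/
theorem G_line (s t : ℝ) (u v : V) : G c (s • u + t • v) =
    s ^ 3 * G c u + 3 * s ^ 2 * t * T c u u v + 3 * s * t ^ 2 * T c u v v + t ^ 3 * G c v := by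
  unfold G
  simp only [T_add_left, T_add_mid, T_add_right, T_smul_left, T_smul_mid, T_smul_right]
  rw [T_swap23 c u v u, T_swap12 c v u u, T_swap23 c u v u, T_swap12 c v u v, T_swap23 c v v u,
    T_swap12 c v u v]
  ring

/-- The cubic in a frame. -/
theorem G_frame (x y z : ℝ) (a b d : V) : G c (x • a + y • b + z • d) =
    x ^ 3 * G c a + y ^ 3 * G c b + z ^ 3 * G c d +
    x ^ 2 * y * (3 * T c a a b) + x ^ 2 * z * (3 * T c a a d) + y ^ 2 * x * (3 * T c a b b) +
    y ^ 2 * z * (3 * T c b b d) + z ^ 2 * x * (3 * T c a d d) + z ^ 2 * y * (3 * T c b d d) +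
    x * y * z * (6 * T c a b d) := by
  have e1 := G_line c 1 z (x • a + y • b) d
  have e2 := G_line c x y a b
  rw [one_smul] at e1
  rw [e1, e2]
  simp only [T_add_left, T_add_mid, T_smul_left, T_smul_mid]
  rw [T_swap12 c b a d]
  ring

/-- The determinant. -/
def det3 (u v w : V) : ℝ :=
  u.1 * (v.2.1 * w.2.2 - v.2.2 * w.2.1) - u.2.1 * (v.1 * w.2.2 - v.2.2 * w.1) +
    u.2.2 * (v.1 * w.2.1 - v.2.1 * w.1)

/-- `p`, `q`, `r` are collinear. -/
def col (p q r : ℝ × ℝ) : Prop := (q.1 - p.1) * (r.2 - p.2) - (q.2 - p.2) * (r.1 - p.1) = 0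

theorem col_iff (p q r : ℝ × ℝ) : col p q r ↔ det3 (hat p) (hat q) (hat r) = 0 := by
  unfold col det3 hat
  constructor <;> intro h <;> linear_combination h

theorem col_swap {p q r : ℝ × ℝ} (h : col p q r) : col q p r := by
  unfold col at *; linear_combination -h

theorem col_rot {p q r : ℝ × ℝ} (h : col p q r) : col q r p := by
  unfold col at *; linear_combination h

/-- A point of the line through `p` and `q`. -/
theorem col_comb {p q r : ℝ × ℝ} (hpq : p ≠ q) (h : col p q r) :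
    ∃ s t : ℝ, s + t = 1 ∧ hat r = s • hat p + t • hat q ∧ (r ≠ q → s ≠ 0) ∧ (r ≠ p → t ≠ 0) := by
  have hs : 0 < (q.1 - p.1) ^ 2 + (q.2 - p.2) ^ 2 := by
    have h1 : q - p ≠ 0 := sub_ne_zero.2 hpq.symm
    have := sq_pos_of h1
    simpa using this
  set t : ℝ := ((q.1 - p.1) * (r.1 - p.1) + (q.2 - p.2) * (r.2 - p.2)) /
    ((q.1 - p.1) ^ 2 + (q.2 - p.2) ^ 2) with ht
  have h1 : r.1 = (1 - t) * p.1 + t * q.1 := by
    rw [ht]
    field_simp
    unfold col at h
    linear_combination (-(q.2 - p.2)) * h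
  have h2 : r.2 = (1 - t) * p.2 + t * q.2 := by
    rw [ht]
    field_simp
    unfold col at h
    linear_combination (q.1 - p.1) * h
  refine ⟨1 - t, t, by ring, ?_, ?_, ?_⟩
  · apply Prod.ext
    · simpa [hat] using h1
    · apply Prod.ext
      · simpa [hat] using h2
      · simp [hat]
  · intro hrq hst
    apply hrq
    have : t = 1 := by linarith
    rw [this] at h1 h2
    apply Prod.ext
    · rw [h1]; ring
    · rw [h2]; ring
  · intro hrp h0
    apply hrp
    rw [h0] at h1 h2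
    apply Prod.ext
    · rw [h1]; ring
    · rw [h2]; ring

/-- `a` is on the cubic, and no line through `a` is contained in the cubic. -/
def NoLine (a : V) : Prop :=
  G c a = 0 ∧ ∀ v : V, T c a a v = 0 → T c a v v = 0 → G c v = 0 → ∃ k : ℝ, v = k • a

/-- Three linearly independent vectors. -/
def Ind (a b d : V) : Prop := ∀ x y z : ℝ, x • a + y • b + z • d = 0 → x = 0 ∧ y = 0 ∧ z = 0

/-- The tangent at `a` has a triple zero at `a` (or `a` is singular and ...). -/
def Flex (a : V) : Prop := ∀ v : V, T c a a v = 0 → T c a v v = 0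

/-- `a` is not singular. -/
def Smooth (a : V) : Prop := ∃ v : V, T c a a v ≠ 0

/-- The residual point of the tangent at `a`, if `w` is another point of the tangent. -/
noncomputable def resid (a w : V) : V := G c w • a + (-(3 * T c a w w)) • w

/-- `p` is a proper combination of `u` and `v` on the cubic. -/
def Third (u v p : V) : Prop := (∃ s t : ℝ, s ≠ 0 ∧ t ≠ 0 ∧ p = s • u + t • v) ∧ G c p = 0

/-- The chain of third points: `p₁ = a ∘ b`, `p₂ = p₁ ∘ d`, `p₃ = p₂ ∘ a`, `p₄ = p₃ ∘ b`. -/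
structure Chain (a b d p₁ p₂ p₃ p₄ : V) : Prop where
  ind : Ind a b d
  na : NoLine c a
  nb : NoLine c b
  nd : NoLine c d
  e₁ : Third c a b p₁
  e₂ : Third c p₁ d p₂
  e₃ : Third c p₂ a p₃
  e₄ : Third c p₃ b p₄

open Classical in
/-- The points of `X` off the cubic. -/
noncomputable def offs (X : Finset (ℝ × ℝ)) : Finset (ℝ × ℝ) := X.filter fun p => G c (hat p) ≠ 0

open Classical in
/-- The points of `X` on the cubic. -/
noncomputable def ons (X : Finset (ℝ × ℝ)) : Finset (ℝ × ℝ) := X.filter fun p => G c (hat p) = 0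

open Classical in
/-- The omissible points on the cubic which are on no line of the cubic. -/
noncomputable def good (X : Finset (ℝ × ℝ)) : Finset (ℝ × ℝ) :=
  X.filter fun p => Om X p ∧ NoLine c (hat p)

/-- The line through `p` and `q` contains no point of `X` off the cubic. -/
def Free (X : Finset (ℝ × ℝ)) (p q : ℝ × ℝ) : Prop := ∀ z ∈ offs c X, ¬ col p q z

theorem Free.symm {c : Fin 10 → ℝ} {X : Finset (ℝ × ℝ)} {p q : ℝ × ℝ} (h : Free c X p q) :
    Free c X q p := fun z hz hc => h z hz (col_swap hc)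

end Pool.Agent.NCub
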