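import Pool.Agent.NCub.Defs

set_option autoImplicit false

/-!
# Squad NC (MP_7e2fab_co): statements of the rows, with proofs

THEOREM. If all but `f` points of `X` (`n` points, not collinear) lie on a cubic curve (zero set of a nonzero
real polynomial of degree `≤ 3`), then `3 (number of omissible points) ≤ n + 33 f + 57`.

Notation: `α = 3 T a a b`, `β = 3 T a a d`, `γ = 3 T a b b`, `δ = 3 T b b d`, `ε = 3 T a d d`, `ζ = 3 T b d d`,
`η = 6 T a b d`, so (`G_frame`) for `G a = G b = G d = 0`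
`G (x a + y b + z d) = α x²y + β x²z + γ y²x + δ y²z + ε z²x + ζ z²y + η xyz`.
-/

namespace Pool.Agent.NCub

open Pool.Agent.OM

/-- CLO (pure algebra; the closing theorem). Let `B' = βγ² + δα² - ηαγ`, `C' = γβ² + εα² - ηαβ`, `D' = δβ - ζα`,
`E' = εγ - ζα`, `J = αδε + βγζ - ηαζ`, `N = α²E' + βB'`. Identities (ring): `N = γC' + α²D'`, `αβJ - εN = -E'C'`,
`αγJ - δN = -B'D'`, `αεD' + ζC' = βJ`, `δαE' + ζB' = γJ`, `βB' + α²E' = N`.
`p₁ ∥ γ a - α b` (`G (s a + t b) = st(αs + γt)`), with `α, γ ≠ 0` (not both are zero by `NoLine a`, and `s, t ≠ 0`). On the line `p₁ d`: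
`G (s(γa - αb) + t d) = st(sB' + tE')`, so `B', E' ≠ 0` (not both are zero by `NoLine d`) and `p₂ ∥ (γE', -αE', -B')` in the frame.
`p₃ ∥ (x₃, -αE', -B')`, `x₃ ≠ γE'`: both `γE'` and `x₃` are zeros of `Px² + Qx + R`, `P = αy + βz = -N`, `Q = γy² + εz² + ηyz`,
`R = yz(δy + ζz)`, `y = -αE'`, `z = -B'`; so `P γE' x₃ = R` (Vieta) and `P ≠ 0` (else `P = Q = R = 0`, line of `Γ` through `a`):
`N x₃ = αB'J`, `N ≠ 0`. In the same way `p₄ ∥ (x₃, y₄, -B')`, `y₄ ≠ -αE'`, `(γx₃ + δz) y₃ y₄ = x₃ z (βx₃ + εz)`, leading coefficient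
`γx₃ + δz ≠ 0`, and (multiply by `N²`) `N D' y₄ = B'J C'`, `D' ≠ 0`. So `p₄ ∥ (αJD', JC', -ND')`.
(1) If `p₄` is not parallel to `d` then `J ≠ 0`. `p₅ = (x₃, y₄, z₅)`: `(εx₃ + ζy₄) z₄ z₅ = x₃y₄(αx₃ + γy₄)`, and
`ND'(εx₃ + ζy₄) = βB'J²`, `D'(αx₃ + γy₄) = B'J`: `ND'βz₅ = -αB'JC'`, so `αy₄ + βz₅ = 0`, i.e. `T a a p₅ = 0`.
If `p₅ ∥ a` then `y₄ = 0`, so `C' = 0`, and `C' = 0` says `T a w w = 0` for `w = β b - α d`; the `v` with `T a a v = 0` are `κ w + λ a`
(`(α, β) ≠ 0` since `α ≠ 0`), and `T a v v = κ² T a w w`.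
(2) `w = κ(β b - α d) + λ a`, `κ ≠ 0` (as `T a a w = 0`, `w` not parallel to `a`) and `resid a w = κ³ (αβD' , βC', -αC')` (up to a
nonzero constant; compute `G (βb - αd) = -αβ(δβ - ζα)`, `3 T a w₀ w₀ = C'` for `w₀ = β b - α d`). So `det3 p₄ d q = 0` because
`(αJD')(βC') = (JC')(αβD')`, and if `p₄ ∥ d` then `J = 0` (`JD' = 0`), and `3 T d d q = ε q_x + ζ q_y = κ³ β(αεD' + ζC') = κ³ β²J = 0`. -/
def CLOStmt : Prop := ∀ (c : Fin 10 → ℝ) (a b d p₁ p₂ p₃ p₄ : V), Chain c a b d p₁ p₂ p₃ p₄ →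
  (∀ p₅ : V, (∀ k : ℝ, p₄ ≠ k • d) → Third c p₄ d p₅ →
    T c a a p₅ = 0 ∧ ∀ k : ℝ, p₅ = k • a → Flex c a) ∧
  (∀ w : V, T c a a w = 0 → (∀ k : ℝ, w ≠ k • a) → det3 p₄ d (resid c a w) = 0 ∧
    ∀ k : ℝ, p₄ = k • d → T c d d (resid c a w) = 0)

/-- FLX (pure algebra): three flexes of a real cubic are collinear. From `hab`: `α ≠ 0`, `γ ≠ 0`. Flexes:
`γβ² + εα² = ηαβ` (at `a`: take `v = β b - α d`), `αδ² + ζγ² = ηγδ` (at `b`: `v = δ a - γ d`, `3 T b b v = γδ - δγ`),
`βζ² + δε² = ηεζ` (at `d`: `v = ζ a - ε b`).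
Put `B = β/α²`, `D = δ/γ²`, `H = η/(αγ)`; then `ε/(α²γ) = B(H - B)`, `ζ/(αγ²) = D(H - D)`, and the third equation gives
`BD (H - B - D)(H² - (B+D)H + B² - BD + D²) = 0`. If `B = 0`: `β = ε = 0`, the line `a d` is in the curve (`NoLine a`); if `D = 0`: `δ = ζ = 0`,
the line `b d`. If `H = B + D`: `G = const (x + y)(x + Dz)(y + Bz)` after `x → γx`, `y → αy` (identity
`xy(x+y) + z(x+y)(Bx+Dy) + BDz²(x+y)`), so `d = (0,0,1)` and the line `x + y = 0`, i.e. `v = γ a - α b`: `T d d v = T d v v = G v = 0`: contradicts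
`NoLine d`. Otherwise `4(H² - (B+D)H + B² - BD + D²) = (2H - B - D)² + 3(B - D)² = 0`: `B = D = H`, `ε = ζ = 0`, so `T d d v = 0` for all `v`:
contradicts `Smooth d`. -/
def FLXStmt : Prop := ∀ (c : Fin 10 → ℝ) (a b d : V), Ind a b d → NoLine c a → NoLine c b → NoLine c d →
  Smooth c d → Flex c a → Flex c b → Flex c d → (∃ p : V, Third c a b p) → False

/-- TAN: at most 8 tangents through a point `z` (for points on no line of the curve). At most one `b ∈ S` is parallel to `z`.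
CASE `G z ≠ 0`. `W = {w : T z z w = 0}` is a plane not containing `z`; `hat b = s z + w`, `w ∈ W`, `w ≠ 0`. With `p w = T z w w`, `g w = G w`:
`G (s z + w) = s³ G z + 3 s p w + g w`, `T b b z = s² G z + p w`. So `p = - s² G z`, `g = 2 s³ G z` and `D w := 4 (p w)³ + G z (g w)² = 0`; the
direction of `w` determines `b` (`w' = κw`: `s'³ = κ³s³`). If `D u₁ ≠ 0` for some `u₁ ∈ W`: basis `u₁, u₂`, `D (x u₁ + u₂)` is a polynomial in `x`
of degree 6 (leading coefficient `D u₁`), so at most 6 directions. If `D = 0` on `W`: `g` is odd on `W`, so `g w₁ = 0` for some `w₁ ≠ 0` in `W`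
(intermediate value theorem on a half circle), and `p w₁ = 0`. Basis `w₁, w₂`: `p = y(2p₁x + p₂y)`, `g = y(g₁x² + g₂xy + g₃y²)`, `D = 0` gives (divide
by `y²`) `g₁ = 0`, then `p₁ = 0`, then `g₂ = 0`. So `G (s z + x w₁ + y w₂)` does not depend on `x`: `G (hat b + x w₁) = 0` for all `x`:
contradicts `NoLine` (or `b ∥ w₁`; then `w_b ∥ w₁`, `s = 0`: `T b b b' = 0..`; in this case `b = w₁` up to a factor and
`G (b + t z) = t³ G z`, so use another member: if all members of `S` are parallel to `w₁` or `z` then `|S| ≤ 2`).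
CASE `G z = 0`. `W` any complement of `z`, `l w = T z z w`, `m w = T z w w`, `g w = G w`: `G (s z + w) = 3 s² l + 3 s m + g`,
`T b b z = 2 s l + m` (times 1). So `l ≠ 0` (else `m = 0`, `g = 0`: line `b z`), `s = -m/(2l)`, `4 l g = 3 m²`: a form of degree 4 on `W`, at most 4
directions unless it vanishes identically. If it does: `l ≠ 0` as a form (`l w_b ≠ 0`); `w₁` with `l w₁ = 0`, then `m w₁ = 0`; `l = l₂y`, `m = y(m₁x + m₂y)`,
`g = 3y(m₁x + m₂y)²/(4l₂)`, `G = (3y/(4l₂)) (2l₂s + m₁x + m₂y)²`; `y ≠ 0` at `b`, so `b` is on the line `2l₂s + m₁x + m₂y = 0` of the curve. -/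
def TANStmt : Prop := ∀ (c : Fin 10 → ℝ) (z : V), z ≠ 0 → ∀ S : Finset (ℝ × ℝ),
  (∀ b ∈ S, NoLine c (hat b) ∧ T c (hat b) (hat b) z = 0) → S.card ≤ 8

/-- LIN: the points of the curve which are on a line of the curve are covered by three lines. `¬ NoLine p` gives `v` not parallel to `hat p` with
`G (s hat p + t v) = 0` for all `s`, `t` (`G_line`); the affine line through `p` in the direction `v - v.2.2 • hat p` is in the curve. Four different
lines of the curve (linear forms `f₁..f₄` on `V`, pairwise not proportional, `G = 0` on their kernels) force `c = 0`: for `v` in no kernel choose `u`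
with `f_i u ≠ 0` and `f_i v * f_j u ≠ f_j v * f_i u` (10 nonzero linear conditions; take `u = (1, τ, τ²)`, finitely many bad `τ`); `t ↦ G (v - t u)` has degree
`≤ 3` and four different zeros `f_i v / f_i u`, so it is the zero polynomial and `G v = 0`. So `G = 0` and `c = 0` (evaluate at ten points, or at small integer
vectors). Then choose the lines one after the other: if three lines do not cover `S`, a fourth one exists. -/
def LINStmt : Prop := ∀ (c : Fin 10 → ℝ), c ≠ 0 → ∀ S : Finset (ℝ × ℝ),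
  (∀ p ∈ S, G c (hat p) = 0 ∧ ¬ NoLine c (hat p)) →
  ∃ L : Fin 3 → AffineSubspace ℝ (ℝ × ℝ), (∀ i, IsLine (L i)) ∧ ∀ p ∈ S, ∃ i, p ∈ L i

/-- POL: a polynomial of degree at most 3 in two variables has ten coefficients. -/
def POLStmt : Prop := ∀ P : MvPolynomial (Fin 2) ℝ, P ≠ 0 → P.totalDegree ≤ 3 →
  ∃ c : Fin 10 → ℝ, c ≠ 0 ∧ ∀ x : ℝ × ℝ, MvPolynomial.eval ![x.1, x.2] P = G c (hat x)

/-- KIT: lines through a point of `good`. (1) third point: `Om` gives a third point of `X` on the line, `Free` says that it is on the cubic. (2) a line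
(through vectors `u`, `v`, not parallel) with a point `a` with `NoLine a` contains at most 3 points of the curve: `G` is a nonzero binary cubic form on the
line (if it is zero: `NoLine a` with the second vector), with at most 3 zeros up to factors (`hat x` are pairwise not parallel). (3) tangent: if `T a a y = 0`,
`y ≠ a` on the curve, then there is no third point: `G (s hat a + t hat y) = 3 s t² T a y y`, a third point gives `T a y y = 0`, contradiction with `NoLine a`.
(4) for `y` on the curve at most `2 f` points `x` of the curve, `x ≠ y`, with `NoLine x` or `NoLine y`, have a line `y x` which is not `Free`: for each `z ∈ offs`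
the line `y z` contains `y` and, by (2), at most 2 others. (5) at most one `a` with `NoLine a` is not smooth: for two of them `T a a b = T a b b = 0`, `G b = 0`. -/
def KITStmt : Prop := ∀ (c : Fin 10 → ℝ) (X : Finset (ℝ × ℝ)),
  (∀ a ∈ good c X, ∀ y ∈ ons c X, y ≠ a → Free c X a y → ∃ w ∈ ons c X, w ≠ a ∧ w ≠ y ∧ col a y w) ∧
  (∀ (u v : V), (∀ x y : ℝ, x • u + y • v = 0 → x = 0 ∧ y = 0) → ∀ S : Finset (ℝ × ℝ),
    (∀ x ∈ S, G c (hat x) = 0 ∧ det3 (hat x) u v = 0) → (∃ a ∈ S, NoLine c (hat a)) → S.card ≤ 3) ∧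
  (∀ a y w : ℝ × ℝ, NoLine c (hat a) → G c (hat y) = 0 → G c (hat w) = 0 → y ≠ a → w ≠ a → w ≠ y →
    T c (hat a) (hat a) (hat y) = 0 → ¬ col a y w) ∧
  (∀ y : ℝ × ℝ, G c (hat y) = 0 → ∀ S : Finset (ℝ × ℝ),
    (∀ x ∈ S, G c (hat x) = 0 ∧ x ≠ y ∧ (NoLine c (hat x) ∨ NoLine c (hat y)) ∧ ¬ Free c X y x) →
    S.card ≤ 2 * (offs c X).card) ∧
  (∀ a b : ℝ × ℝ, NoLine c (hat a) → NoLine c (hat b) → ¬ Smooth c (hat a) → ¬ Smooth c (hat b) → a = b)

/-- GDA (uses KIT TAN FLX): a good starting point. `f = |offs|`. Not smooth: at most 1 (KIT 5). `T a a z = 0` for some `z ∈ offs`: at most `8 f` (TAN).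
Smooth flexes: at most `2 f + 3`: if there are two of them, `a`, `b`, with `Free a b`, then (KIT 1) there is a third point on the line `a b`
(`Third c (hat a) (hat b) (hat w)` by `col_comb`), so by FLX all smooth flexes in `good` are on this line, at most 3 (KIT 2); otherwise, for a fixed flex `a`, all
other flexes `b` have `¬ Free a b`: at most `2 f` (KIT 4). -/
def GDAStmt : Prop := ∀ (c : Fin 10 → ℝ) (X : Finset (ℝ × ℝ)), 10 * (offs c X).card + 4 < (good c X).card →
  ∃ a ∈ good c X, Smooth c (hat a) ∧ ¬ Flex c (hat a) ∧ ∀ z ∈ offs c X, T c (hat a) (hat a) (hat z) ≠ 0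

/-- CHN (uses KIT CLO TAN): no good point `a` if `|good|` is large. Choose `b ∈ good`, `b ≠ a`, `Free a b` (at most `1 + 2f` exceptions, KIT 4); `p₁` third point on `a b`.
Choose `d ∈ good` outside the line `a b` (at most 3 exceptions, KIT 2) with
(i) `Free p₁ d` (`≤ 2f` exceptions, KIT 4): `p₂` = third point on `p₁ d` (KIT 1 for `d`), not on the line `a b`;
(ii) `Free a p₂`: by KIT 4 for `a` there are `≤ 2f` points `p₂` on the curve with `¬ Free a p₂`, each determines `d` (the line `p₁ p₂` has at most 3 points of the curve,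
`p₁`, `p₂` and `d`); `p₃` = third point on `p₂ a`, `p₃ ≠ b`;
(iii) `Free b p₃`: `≤ 2f` points `p₃`, each determines `p₂` (line `a p₃`), hence `d`; `p₄` = third point on `p₃ b`;
(iv) `p₄ ≠ d`: by CLO (2) with a `w` (`T a a w = 0`, `w` not parallel to `a`, exists by dimension) `d` is one of at most 8 points (TAN for `z = resid a w`, which is not 0);
(v) `Free d p₄`: if `z ∈ offs` is on the line `p₄ d` then `det3 (hat z) (hat d) (resid a w) = 0` by CLO (2): `d` is on the line through `z` and `resid a w` (not parallel,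
`G z ≠ 0 = G (resid)`): at most 3 for each `z` (KIT 2). Total: `9f + 12` exceptions including `a`.
`p₅` = third point on `p₄ d` (KIT 1 for `d`): CLO (1): `T a a p₅ = 0`, `p₅ ≠ a` as `a` is not a flex. The line `a p₅` is `Free`: a `z ∈ offs` on it has `T a a z = 0`. So there
is a third point (KIT 1), contradiction to KIT 3. (`hat p_i` are proper combinations by `col_comb`.) -/
def CHNStmt : Prop := ∀ (c : Fin 10 → ℝ) (X : Finset (ℝ × ℝ)), 9 * (offs c X).card + 12 < (good c X).card →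
  ∀ a ∈ good c X, Smooth c (hat a) → ¬ Flex c (hat a) → (∀ z ∈ offs c X, T c (hat a) (hat a) (hat z) ≠ 0) → False

/-- FIN (uses GDA CHN LIN POL): the theorem. `|good| ≤ 10 f + 12`; the omissible points on the curve which are not in `good` are on three lines: at most
`(n + 24)/3` (`on_lines`, `t = 3`); the omissible points off the curve: at most `f`. (`om_of_omissible`.) -/
def FINStmt : Prop := ∀ (X : Set (ℝ × ℝ)), X.Finite → ¬ Collinear ℝ X →
  ∀ P : MvPolynomial (Fin 2) ℝ, P ≠ 0 → P.totalDegree ≤ 3 →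
  3 * {x | Omissible X x}.ncard ≤ X.ncard + 33 * {x ∈ X | MvPolynomial.eval ![x.1, x.2] P ≠ 0}.ncard + 60

end Pool.Agent.NCub
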